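import Mathlib

set_option autoImplicit false

namespace Pool.Agent.Results.MP_700e60_co.Counter

open MvPolynomial

/-- a polynomial pattern: a finite family of nonzero polynomials with coefficients in the
naturals and zero constant term -/
def IsPattern {m : ℕ} (F : Finset (MvPolynomial (Fin m) ℕ)) : Prop :=
  ∀ P ∈ F, P ≠ 0 ∧ constantCoeff P = 0

/-- partition regular over the naturals, with all variables larger than `B` -/
def PRN {m : ℕ} (B : ℕ) (F : Finset (MvPolynomial (Fin m) ℕ)) : Prop :=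
  ∀ (r : ℕ) (c : ℕ → Fin r), ∃ a : Fin m → ℕ, (∀ i, B < a i) ∧
    ∃ k, ∀ P ∈ F, c (eval a P) = k

/-- partition regular over the nonzero polynomials in one variable with zero constant term -/
def PRT {m : ℕ} (F : Finset (MvPolynomial (Fin m) ℕ)) : Prop :=
  ∀ (r : ℕ) (c : Polynomial ℕ → Fin r), ∃ a : Fin m → Polynomial ℕ,
    (∀ i, a i ≠ 0 ∧ (a i).coeff 0 = 0) ∧ ∃ k, ∀ P ∈ F, c (aeval a P) = k

theorem key (B r : ℕ) (c : ℕ → Fin r) : ∃ x y : ℕ, B < x ∧ B < y ∧ c x = c (2 * x + x * y) := by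
  have H : ∀ i j : ℕ, i < j → c ((B + 3) ^ (i + 1)) = c ((B + 3) ^ (j + 1)) →
      ∃ x y : ℕ, B < x ∧ B < y ∧ c x = c (2 * x + x * y) := by
    intro i j hij h
    obtain ⟨d, rfl⟩ := Nat.exists_eq_add_of_lt hij
    have h1 : ∀ n : ℕ, B + 3 ≤ (B + 3) ^ (n + 1) := fun n =>
      Nat.le_self_pow (by omega) _
    obtain ⟨y, hy⟩ := Nat.exists_eq_add_of_le (le_trans (by omega : 2 ≤ B + 3) (h1 d))
    refine ⟨(B + 3) ^ (i + 1), y, by have := h1 i; omega, by have := h1 d; omega, ?_⟩
    rw [h]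
    congr 1
    have : (B + 3) ^ (i + d + 1 + 1) = (B + 3) ^ (i + 1) * (B + 3) ^ (d + 1) := by ring
    rw [this, hy]; ring
  obtain ⟨i, j, hne, h⟩ :=
    Finite.exists_ne_map_eq_of_infinite (fun n : ℕ => c ((B + 3) ^ (n + 1)))
  rcases lt_or_gt_of_ne hne with h1 | h1
  · exact H i j h1 h
  · exact H j i h1 h.symm

theorem result : ∃ F : Finset (MvPolynomial (Fin 2) ℕ),
    (∀ P, P ∈ F ↔ P = X 0 ∨ P = 2 * X 0 + X 0 * X 1) ∧
    IsPattern F ∧ (∀ B, PRN B F) ∧ ¬ PRT F := by
  classical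
  refine ⟨{X 0, 2 * X 0 + X 0 * X 1}, by simp, ?_, ?_, ?_⟩
  · intro P hP
    simp only [Finset.mem_insert, Finset.mem_singleton] at hP
    rcases hP with rfl | rfl
    · exact ⟨X_ne_zero _, by simp⟩
    · refine ⟨fun h => ?_, by simp⟩
      have := congrArg (eval fun _ => 1) h
      simp at this
  · intro B r c
    obtain ⟨x, y, hx, hy, h⟩ := key B r c
    refine ⟨![x, y], ?_, c x, ?_⟩
    · intro i; fin_cases i
      · exact hx
      · exact hy
    · intro P hP
      simp only [Finset.mem_insert, Finset.mem_singleton] at hP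
      rcases hP with rfl | rfl
      · simp
      · simp [h]
  · intro H
    obtain ⟨a, ha, k, hk⟩ := H 2 fun p =>
      ⟨padicValNat 2 p.trailingCoeff % 2, Nat.mod_lt _ (by norm_num)⟩
    have h1 := hk (X 0) (by simp)
    have h2 := hk (2 * X 0 + X 0 * X 1) (by simp)
    have e : aeval a (2 * X 0 + X 0 * X 1 : MvPolynomial (Fin 2) ℕ) = a 0 * (2 + a 1) := by
      simp only [map_add, map_mul, aeval_X, map_ofNat]; ring
    have c0 : (2 + a 1).coeff 0 = 2 := by
      rw [Polynomial.coeff_add, (ha 1).2]; simp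
    have t2 : (2 + a 1).trailingCoeff = 2 := by
      rw [Polynomial.trailingCoeff_eq_coeff_zero (by rw [c0]; norm_num), c0]
    have t0 : (a 0).trailingCoeff ≠ 0 := by
      rw [Ne, Polynomial.trailingCoeff_eq_zero]; exact (ha 0).1
    rw [← h1, e, aeval_X] at h2
    have h3 := congrArg Fin.val h2
    simp only [Polynomial.trailingCoeff_mul, t2] at h3
    have : Fact (Nat.Prime 2) := ⟨Nat.prime_two⟩
    rw [padicValNat.mul t0 (by norm_num), padicValNat_self] at h3
    omega

end Pool.Agent.Results.MP_700e60_co.Counter
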